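import Pool.Agent.Lib_helper28.BCExtra
import Pool.Agent.Lib_helper28.BCOne4

set_option autoImplicit false

namespace Pool.Agent.Results.MP_bc4c60_co.SingleLetterExponent

open BC

/-- The exponent of `M(n,lam,c)`, uniformly in `1 ≤ lam ≤ n` and `2^{-n} ≤ c ≤ 1`:
* the single-letter formula with error `o(n)`;
* no function of `n` and `c` alone has this property;
* closed form if `c² n → ∞` (in particular for constant `c`);
* if `c² n ≤ 1`, the formula with an optimum over one distribution on `{0,1}²`;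
* closed form if `c² n ≤ 1` and `log (1/c)` is at least `n` times the mutual information of the
  distribution on `{0,1}²` with `p₁₁ = lam/n` and the other three values equal. -/
theorem result :
    (∀ ε : ℝ, 0 < ε → ∃ N : ℕ, ∀ n ≥ N, ∀ lam : ℕ, 1 ≤ lam → lam ≤ n →
      ∀ c : ℝ, (1 / 2 : ℝ) ^ n ≤ c → c ≤ 1 →
        |Real.logb 2 (MM n lam c) - n * (Psi ((lam : ℝ) / n) (Real.log (1 / c) / n)
          (1 / (2 * Real.pi * n * c ^ 2)) / Real.log 2)| ≤ ε * n) ∧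
    (¬ ∃ F : ℕ → ℝ → ℝ, ∀ ε : ℝ, 0 < ε → ∃ N : ℕ, ∀ n ≥ N, ∀ lam : ℕ, 1 ≤ lam → lam ≤ n →
      ∀ c : ℝ, (1 / 2 : ℝ) ^ n ≤ c → c ≤ 1 →
        |Real.logb 2 (MM n lam c) - F n c| ≤ ε * n) ∧
    (∀ ε : ℝ, 0 < ε → ∃ N : ℕ, ∀ n ≥ N, ∀ lam : ℕ, 1 ≤ lam → lam ≤ n →
      ∀ c : ℝ, (1 / 2 : ℝ) ^ n ≤ c → c ≤ 1 → (N : ℝ) ≤ c ^ 2 * n →
        |Real.logb 2 (MM n lam c)
          - n * (Real.binEntropy (max ((lam : ℝ) / n) (1 / 2)) / Real.log 2)| ≤ ε * n) ∧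
    (∀ ε : ℝ, 0 < ε → ∃ N : ℕ, ∀ n ≥ N, ∀ lam : ℕ, 1 ≤ lam → lam ≤ n →
      ∀ c : ℝ, (1 / 2 : ℝ) ^ n ≤ c → c ≤ 1 → c ^ 2 * n ≤ 1 →
        |Real.logb 2 (MM n lam c)
          - n * (min (2 * Real.log 2) (Real.log (1 / c) / n
            + Ent ((lam : ℝ) / n) (Real.log (1 / c) / n)) / Real.log 2)| ≤ ε * n) ∧
    (∀ ε : ℝ, 0 < ε → ∃ N : ℕ, ∀ n ≥ N, ∀ lam : ℕ, 1 ≤ lam → lam ≤ n →
      ∀ c : ℝ, (1 / 2 : ℝ) ^ n ≤ c → c ≤ 1 → c ^ 2 * n ≤ 1 →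
        n * (2 * Real.binEntropy ((1 + 2 * ((lam : ℝ) / n)) / 3)
          - (Real.binEntropy ((lam : ℝ) / n) + (1 - (lam : ℝ) / n) * Real.log 3))
            ≤ Real.log (1 / c) →
        |Real.logb 2 (MM n lam c)
          - n * (min (2 * Real.log 2) (Real.log (1 / c) / n
            + (Real.binEntropy ((lam : ℝ) / n) + (1 - (lam : ℝ) / n) * Real.log 3))
              / Real.log 2)| ≤ ε * n) := by
  refine ⟨main, no_function, explicit_large, explicit_one, ?_⟩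
  intro ε hε
  obtain ⟨N, hN⟩ := explicit_small ε hε
  exact ⟨N, fun n hn lam h1 h2 c h3 h4 h5 h6 => hN n hn lam h1 h2 c h3 h4 ⟨h5, h6⟩⟩

end Pool.Agent.Results.MP_bc4c60_co.SingleLetterExponent
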